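import Pool.Agent.Run7.h371.TB.Iface

/-!
# Piece KeyEll of project TB (MP_64ccd3_an): the circle part
-/

set_option autoImplicit false

namespace Run7.h19.TB

open Complex MeasureTheory Filter Topology Set Metric Run7.h371.TB

theorem norm_u (t : ℝ) : ‖u t‖ = 1 := Complex.norm_exp_ofReal_mul_I t

theorem u_ne (t : ℝ) : u t ≠ 0 := by
  intro h
  have := norm_u t
  rw [h, norm_zero] at this
  exact zero_ne_one this

theorem u_cont : Continuous u := by
  unfold u
  fun_prop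

theorem AE_meas {E : Set ℂ} (hE : IsClosed E) : MeasurableSet (AE E) :=
  measurableSet_Ioc.inter (hE.measurableSet.preimage u_cont.measurable)

theorem NE_meas {E : Set ℂ} (hE : IsClosed E) : MeasurableSet (NE E) :=
  measurableSet_Ioc.inter (hE.measurableSet.compl.preimage u_cont.measurable)

theorem AE_fin (E : Set ℂ) : volume (AE E) < ⊤ :=
  (measure_mono (fun _ ht => ht.1)).trans_lt (measure_Ioc_lt_top (μ := volume)
    (a := (0 : ℝ)) (b := 2 * Real.pi))

theorem NE_fin (E : Set ℂ) : volume (NE E) < ⊤ :=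
  (measure_mono (fun _ ht => ht.1)).trans_lt (measure_Ioc_lt_top (μ := volume)
    (a := (0 : ℝ)) (b := 2 * Real.pi))

/-- the coefficients are bounded -/
theorem coeff_bd {a : ℕ → ℂ} {E : Set ℂ} {M : ℝ} (h : Dat a E M) (n : ℕ) : ‖a n‖ ≤ 2 * M := by
  obtain ⟨ξ, hξ⟩ := h.ne
  have h1 : S a (n + 1) ξ - S a n ξ = a n * ξ ^ n := by
    unfold S
    rw [Finset.sum_range_succ]
    ring
  have h2 : ‖a n‖ = ‖S a (n + 1) ξ - S a n ξ‖ := by
    rw [h1, norm_mul, norm_pow, h.circ ξ hξ, one_pow, mul_one]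
  rw [h2]
  calc ‖S a (n + 1) ξ - S a n ξ‖ ≤ ‖S a (n + 1) ξ‖ + ‖S a n ξ‖ := norm_sub_le _ _
    _ ≤ M + M := add_le_add (h.bd ξ hξ _) (h.bd ξ hξ _)
    _ = 2 * M := by ring

theorem dat_nonneg {a : ℕ → ℂ} {E : Set ℂ} {M : ℝ} (h : Dat a E M) : 0 ≤ M := by
  obtain ⟨ξ, hξ⟩ := h.ne
  exact (norm_nonneg _).trans (h.bd ξ hξ 0)

theorem summ {c : ℕ → ℂ} {C : ℝ} (hc : ∀ n, ‖c n‖ ≤ C) {z : ℂ} (hz : ‖z‖ < 1) :
    Summable (fun j : ℕ => c j * z ^ j) := by
  refine Summable.of_norm_bounded (g := fun j => C * ‖z‖ ^ j)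
    ((summable_geometric_of_lt_one (norm_nonneg _) hz).mul_left C) fun j => ?_
  rw [norm_mul, norm_pow]
  exact mul_le_mul_of_nonneg_right (hc j) (pow_nonneg (norm_nonneg _) _)

/-- `P = S + z^n T` -/
theorem P_eq {a : ℕ → ℂ} {C : ℝ} (ha : ∀ n, ‖a n‖ ≤ C) (n : ℕ) {z : ℂ} (hz : ‖z‖ < 1) :
    P a z = S a n z + z ^ n * T a n z := by
  unfold P S T
  rw [← (summ ha hz).sum_add_tsum_nat_add n, ← tsum_mul_left]
  congr 1
  apply tsum_congr
  intro j
  rw [Nat.add_comm n j, pow_add]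
  ring

theorem series_cont {c : ℕ → ℂ} {C : ℝ} (hc : ∀ n, ‖c n‖ ≤ C) {s : ℝ} (hs0 : 0 < s)
    (hs1 : s < 1) : Continuous (fun t : ℝ => ∑' j : ℕ, c j * ((s : ℂ) * u t) ^ j) := by
  refine continuous_tsum (u := fun j => C * s ^ j) (fun j => ?_)
    ((summable_geometric_of_lt_one hs0.le hs1).mul_left C) fun j t => ?_
  · have := u_cont
    fun_prop
  · rw [norm_mul, norm_pow, norm_mul, norm_u, mul_one, Complex.norm_real, Real.norm_eq_abs,
      abs_of_pos hs0]
    exact mul_le_mul_of_nonneg_right (hc j) (pow_nonneg hs0.le _)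

theorem cont_int {E : Set ℂ} {f : ℝ → ℂ} (hf : Continuous f) : IntegrableOn f (AE E) :=
  (hf.integrableOn_Ioc (a := 0) (b := 2 * Real.pi)).mono_set fun _ ht => ht.1

theorem t_KeyEll : KeyEll := by
  intro hAbel hBes a E M hD J hJ
  have ha := coeff_bd hD
  have hM := dat_nonneg hD
  have hAm := AE_meas hD.closed
  have hsu : ∀ s : ℝ, 0 < s → ∀ t : ℝ, ‖(s : ℂ) * u t‖ = s := by
    intro s hs t
    rw [norm_mul, norm_u, mul_one, Complex.norm_real, Real.norm_eq_abs, abs_of_pos hs]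
  set L : ℕ → ℂ := fun n => J n + ∫ t in AE E, (u t ^ n)⁻¹ * S a n (u t) with hL
  set ell : ℕ → ℝ → ℂ := fun n s => ∫ t in AE E, (u t ^ n)⁻¹ * P a ((s : ℂ) * u t) with hell
  have hS_cont : ∀ n : ℕ, Continuous (fun q : ℝ × ℝ => (u q.2 ^ n)⁻¹ * S a n ((q.1 : ℂ) * u q.2)) := by
    intro n
    have h1 : Continuous (fun q : ℝ × ℝ => (u q.2 ^ n)⁻¹) :=
      ((u_cont.comp continuous_snd).pow n).inv₀ fun q => pow_ne_zero _ (u_ne _)
    refine h1.mul ?_
    unfold S
    have := u_cont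
    fun_prop
  -- the identity for `s < 1`
  have hid : ∀ n : ℕ, ∀ s : ℝ, 0 < s → s < 1 → ell n s =
      (s : ℂ) ^ n * (∫ t in AE E, T a n ((s : ℂ) * u t)) +
        ∫ t in AE E, (u t ^ n)⁻¹ * S a n ((s : ℂ) * u t) := by
    intro n s hs0 hs1
    have hTc : Continuous (fun t : ℝ => T a n ((s : ℂ) * u t)) := by
      unfold T
      exact series_cont (fun j => ha (n + j)) hs0 hs1
    have hSc : Continuous (fun t : ℝ => (u t ^ n)⁻¹ * S a n ((s : ℂ) * u t)) := by
      have hpair : Continuous (fun t : ℝ => ((s, t) : ℝ × ℝ)) := by fun_prop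
      have hcomp := (hS_cont n).comp hpair
      exact hcomp
    have hmul : Continuous (fun t : ℝ => (s : ℂ) ^ n * T a n ((s : ℂ) * u t)) :=
      continuous_const.mul hTc
    have hadd := integral_add (cont_int (E := E) hmul) (cont_int (E := E) hSc)
    rw [integral_const_mul] at hadd
    rw [← hadd]
    show ∫ t in AE E, (u t ^ n)⁻¹ * P a ((s : ℂ) * u t) = _
    apply integral_congr_ae
    refine Eventually.of_forall fun t => ?_
    have hz : ‖(s : ℂ) * u t‖ < 1 := by rw [hsu s hs0]; exact hs1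
    have hun : u t ^ n ≠ 0 := pow_ne_zero _ (u_ne t)
    show (u t ^ n)⁻¹ * P a ((s : ℂ) * u t) =
      (s : ℂ) ^ n * T a n ((s : ℂ) * u t) + (u t ^ n)⁻¹ * S a n ((s : ℂ) * u t)
    rw [P_eq ha n hz, mul_pow, mul_add, add_comm]
    congr 1
    calc (u t ^ n)⁻¹ * ((s : ℂ) ^ n * u t ^ n * T a n ((s : ℂ) * u t))
        = ((u t ^ n)⁻¹ * u t ^ n) * ((s : ℂ) ^ n * T a n ((s : ℂ) * u t)) := by ring
      _ = (s : ℂ) ^ n * T a n ((s : ℂ) * u t) := by rw [inv_mul_cancel₀ hun, one_mul]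
  -- convergence
  have hlim : ∀ n : ℕ, Tendsto (ell n) (𝓝[<] 1) (𝓝 (L n)) := by
    intro n
    have h1 : Tendsto (fun s : ℝ => (s : ℂ) ^ n) (𝓝[<] 1) (𝓝 1) := by
      have h2 : Continuous (fun s : ℝ => (s : ℂ) ^ n) := by fun_prop
      have h3 := h2.tendsto 1
      simp only [Complex.ofReal_one, one_pow] at h3
      exact h3.mono_left nhdsWithin_le_nhds
    have h4 : Tendsto (fun s : ℝ => ∫ t in AE E, (u t ^ n)⁻¹ * S a n ((s : ℂ) * u t)) (𝓝[<] 1)
        (𝓝 (∫ t in AE E, (u t ^ n)⁻¹ * S a n (u t))) := by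
      have h01 : ∀ᶠ s : ℝ in 𝓝[<] 1, 0 < s ∧ s < 1 :=
        (eventually_nhdsWithin_of_eventually_nhds (lt_mem_nhds zero_lt_one)).and
          eventually_mem_nhdsWithin
      refine tendsto_integral_filter_of_dominated_convergence
        (fun _ => ∑ j ∈ Finset.range n, ‖a j‖) ?_ ?_ ?_ ?_
      · refine Eventually.of_forall fun s => ?_
        have hpair : Continuous (fun t : ℝ => ((s, t) : ℝ × ℝ)) := by fun_prop
        have hcomp := (hS_cont n).comp hpair
        exact hcomp.aestronglyMeasurable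
      · filter_upwards [h01] with s hs
        refine Eventually.of_forall fun t => ?_
        rw [norm_mul, norm_inv, norm_pow, norm_u, one_pow, inv_one, one_mul]
        unfold S
        refine (norm_sum_le _ _).trans (Finset.sum_le_sum fun j _ => ?_)
        rw [norm_mul, norm_pow, hsu s hs.1]
        exact mul_le_of_le_one_right (norm_nonneg _) (pow_le_one₀ hs.1.le hs.2.le)
      · exact integrableOn_const (AE_fin E).ne
      · refine Eventually.of_forall fun t => ?_
        have hpair : Continuous (fun s : ℝ => ((s, t) : ℝ × ℝ)) := by fun_prop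
        have hcomp := (hS_cont n).comp hpair
        have h5 : Continuous (fun s : ℝ => (u t ^ n)⁻¹ * S a n ((s : ℂ) * u t)) := hcomp
        have h6 := h5.tendsto 1
        simp only [Complex.ofReal_one, one_mul] at h6
        exact h6.mono_left nhdsWithin_le_nhds
    have h7 := (h1.mul (hJ n)).add h4
    rw [one_mul] at h7
    refine h7.congr' ?_
    have h01 : ∀ᶠ s : ℝ in 𝓝[<] 1, 0 < s ∧ s < 1 :=
      (eventually_nhdsWithin_of_eventually_nhds (lt_mem_nhds zero_lt_one)).and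
        eventually_mem_nhdsWithin
    filter_upwards [h01] with s hs
    exact (hid n s hs.1 hs.2).symm
  -- Bessel
  have hB : ∀ F : Finset ℕ, ∑ n ∈ F, ‖L n‖ ^ 2 ≤ (2 * Real.pi * M) ^ 2 := by
    intro F
    have h1 : Tendsto (fun s : ℝ => ∑ n ∈ F, ‖ell n s‖ ^ 2) (𝓝[<] 1) (𝓝 (∑ n ∈ F, ‖L n‖ ^ 2)) :=
      tendsto_finsetSum F fun n _ => ((hlim n).norm).pow 2
    refine le_of_tendsto h1 ?_
    have h01 : ∀ᶠ s : ℝ in 𝓝[<] 1, 0 < s ∧ s < 1 :=
      (eventually_nhdsWithin_of_eventually_nhds (lt_mem_nhds zero_lt_one)).and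
        eventually_mem_nhdsWithin
    filter_upwards [h01] with s hs
    refine hBes (AE E) hAm (fun t ht => ht.1) (fun t => P a ((s : ℂ) * u t)) ?_ M ?_ F
    · have : Continuous (fun t : ℝ => P a ((s : ℂ) * u t)) := by
        unfold P
        exact series_cont ha hs.1 hs.2
      exact this.measurable
    · intro t ht
      have h2 := hAbel a (u t) M (norm_u t) (fun n => hD.bd (u t) ht.2 n) ((s : ℂ) * u t)
        (by rw [hsu s hs.1]; exact hs.2)
      have h3 : ‖(s : ℂ) * u t - u t‖ = 1 - s := by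
        have : (s : ℂ) * u t - u t = ((s - 1 : ℝ) : ℂ) * u t := by push_cast; ring
        rw [this, norm_mul, norm_u, mul_one, Complex.norm_real, Real.norm_eq_abs, abs_of_neg
          (by linarith [hs.2])]
        ring
      rw [h3, hsu s hs.1] at h2
      have h4 : M * (1 - s) / (1 - s) = M := by
        have : (1 : ℝ) - s ≠ 0 := by linarith [hs.2]
        field_simp
      rw [h4] at h2
      exact h2
  have hsum : Summable (fun n => ‖L n‖ ^ 2) :=
    summable_of_sum_le (fun n => sq_nonneg _) hB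
  have h0 := hsum.tendsto_atTop_zero
  have h1 : Tendsto (fun n => ‖L n‖) atTop (𝓝 0) := by
    have h2 : Tendsto (fun n => √(‖L n‖ ^ 2)) atTop (𝓝 (√0)) :=
      (Real.continuous_sqrt.tendsto 0).comp h0
    simp only [Real.sqrt_zero] at h2
    refine h2.congr fun n => ?_
    exact Real.sqrt_sq (norm_nonneg _)
  exact tendsto_zero_iff_norm_tendsto_zero.2 h1

end Run7.h19.TB
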