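import Pool.Agent.Run7.h371.TB.Iface

/-!
# Piece LimitIdentity of project TB (MP_64ccd3_an): passage to the limit of the shifts
-/

set_option autoImplicit false

namespace Run7.h19.TB.LI

open Complex MeasureTheory Filter Topology Set Metric Run7.h371.TB

theorem ps_cont {c : ℕ → ℂ} {C : ℝ} (hc : ∀ n, ‖c n‖ ≤ C) :
    ContinuousOn (fun z : ℂ => ∑' j : ℕ, c j * z ^ j) (ball 0 1) := by
  intro z hz
  rw [mem_ball_zero_iff] at hz
  obtain ⟨r, hr1, hr2⟩ := exists_between hz
  have hr0 : 0 ≤ r := (norm_nonneg z).trans hr1.le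
  have h1 : ContinuousOn (fun z : ℂ => ∑' j : ℕ, c j * z ^ j) (ball 0 r) := by
    refine continuousOn_tsum (u := fun j => C * r ^ j) (fun j => ?_)
      ((summable_geometric_of_lt_one hr0 hr2).mul_left C) fun j x hx => ?_
    · fun_prop
    · rw [mem_ball_zero_iff] at hx
      rw [norm_mul, norm_pow]
      exact mul_le_mul (hc j) (pow_le_pow_left₀ (norm_nonneg _) hx.le _)
        (pow_nonneg (norm_nonneg _) _) ((norm_nonneg _).trans (hc j))
  exact (h1.continuousAt (isOpen_ball.mem_nhds (by simpa using hr1))).continuousWithinAt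

theorem NE_fin (E : Set ℂ) : volume (NE E) ≠ ⊤ :=
  ((measure_mono (fun _ ht => ht.1)).trans_lt (measure_Ioc_lt_top (μ := volume)
    (a := (0 : ℝ)) (b := 2 * Real.pi))).ne

theorem t_LimitIdentity : LimitIdentity := by
  intro hA hT hC hH a E M hD φ b hL σ hσ hσ' hex
  obtain ⟨L, hL0, hid⟩ := hex
  obtain ⟨ha, hM, hTb, hQb⟩ := hT hA a E M hD
  obtain ⟨-, -, -, -, hNm, -, -, -, hκ, hκm, hκp, hwm, hwp, hNE, hnear⟩ :=
    hC E hD.closed hD.ne hD.circ σ hσ hσ'
  obtain ⟨hR0, hR1⟩ := hH a (2 * M) ha φ b hL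
  set K : ℝ := 2 * M * (1 + 1 / σ) with hK
  have hTle : ∀ n : ℕ, ∀ t ∈ NE E, ‖T a n (w (rad E (-σ)) t)‖ ≤ K := by
    intro n t ht
    obtain ⟨α, hα, h1, -⟩ := hnear t
    obtain ⟨-, h2, -⟩ := hNE t ht
    have h3 := h1 1 one_pos le_rfl
    simp only [Complex.ofReal_one, one_mul] at h3
    refine (hTb n α hα _ h2).trans ?_
    rw [div_le_iff₀ (by linarith), hK, mul_assoc (2 * M)]
    exact mul_le_mul_of_nonneg_left h3 (by linarith)
  have hQle : ∀ n : ℕ, ∀ t ∈ NE E, ‖Q a n (w (rad E σ) t)‖ ≤ K := by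
    intro n t ht
    obtain ⟨α, hα, -, h1⟩ := hnear t
    obtain ⟨-, -, h2⟩ := hNE t ht
    refine (hQb n α hα _ h2).trans ?_
    rw [div_le_iff₀ (by linarith), hK, mul_assoc (2 * M)]
    exact mul_le_mul_of_nonneg_left h1 (by linarith)
  have hTc : ∀ n : ℕ, ContinuousOn (fun t => T a n (w (rad E (-σ)) t)) (NE E) := by
    intro n
    have h1 : ContinuousOn (T a n) (ball 0 1) := ps_cont (c := fun j => a (n + j)) fun j => ha _
    exact h1.comp hwm.continuousOn fun t ht => by
      rw [mem_ball_zero_iff]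
      exact (hNE t ht).2.1
  have hQc : ∀ n : ℕ, ContinuousOn (fun t => Q a n (w (rad E σ) t)) (NE E) := by
    intro n
    have h1 : ContinuousOn (Q a n) {z : ℂ | z ≠ 0} := by
      unfold Q S
      refine ContinuousOn.mul (ContinuousOn.inv₀ (by fun_prop) fun z hz => pow_ne_zero _ hz) ?_
      fun_prop
    refine h1.comp hwp.continuousOn fun t ht => ?_
    have h2 := (hNE t ht).2.2
    intro h0
    rw [h0, norm_zero] at h2
    linarith
  have hlim : Tendsto (fun k => ∫ t in NE E, (T a (φ k) (w (rad E (-σ)) t) * κ (rad E (-σ)) t +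
      Q a (φ k) (w (rad E σ) t) * κ (rad E σ) t)) atTop
      (𝓝 (∫ t in NE E, (R0 b (w (rad E (-σ)) t) * κ (rad E (-σ)) t +
      R1 b (w (rad E σ) t) * κ (rad E σ) t))) := by
    refine tendsto_integral_of_dominated_convergence (fun _ => K * 2 + K * 2) ?_ ?_ ?_ ?_
    · intro k
      exact (((hTc (φ k)).aestronglyMeasurable hNm).mul hκm.aestronglyMeasurable).add
        (((hQc (φ k)).aestronglyMeasurable hNm).mul hκp.aestronglyMeasurable)
    · exact integrableOn_const (NE_fin E)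
    · intro k
      refine (ae_restrict_iff' hNm).2 (Eventually.of_forall fun t ht => ?_)
      refine (norm_add_le _ _).trans (add_le_add ?_ ?_)
      · rw [norm_mul]
        exact mul_le_mul (hTle _ t ht) (hκ t).1 (norm_nonneg _) ((norm_nonneg _).trans (hTle 0 t ht))
      · rw [norm_mul]
        exact mul_le_mul (hQle _ t ht) (hκ t).2 (norm_nonneg _) ((norm_nonneg _).trans (hQle 0 t ht))
    · refine (ae_restrict_iff' hNm).2 (Eventually.of_forall fun t ht => ?_)
      exact ((hR0 _ (hNE t ht).2.1).mul_const _).add ((hR1 _ (hNE t ht).2.2).mul_const _)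
  have h1 : Tendsto (fun k => 2 * (Real.pi : ℂ) * I * a (φ k)) atTop
      (𝓝 (2 * (Real.pi : ℂ) * I * b 0)) := by
    have h2 := hL.2 0
    have h3 : ∀ k, a (((φ k : ℤ) + 0).toNat) = a (φ k) := fun k => by
      rw [add_zero, Int.toNat_natCast]
    simp only [h3] at h2
    exact h2.const_mul _
  have h4 : Tendsto (fun k => I * L (φ k)) atTop (𝓝 (I * 0)) :=
    (hL0.comp hL.1.tendsto_atTop).const_mul I
  have h5 := h4.add hlim
  rw [mul_zero, zero_add] at h5
  refine tendsto_nhds_unique h1 (h5.congr fun k => ?_)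
  exact (hid (φ k)).symm

end Run7.h19.TB.LI
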