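import Pool.Agent.Run7.h371.TB.Iface

/-!
# Piece SigmaLimit of project TB (MP_64ccd3_an): the limit `σ → 0`
-/

set_option autoImplicit false

namespace Run7.h19.TB.SL

open Complex MeasureTheory Filter Topology Set Metric Run7.h371.TB

theorem norm_u (t : ℝ) : ‖u t‖ = 1 := Complex.norm_exp_ofReal_mul_I t

theorem NE_fin (E : Set ℂ) : volume (NE E) ≠ ⊤ :=
  ((measure_mono (fun _ ht => ht.1)).trans_lt (measure_Ioc_lt_top (μ := volume)
    (a := (0 : ℝ)) (b := 2 * Real.pi))).ne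

/-- the curve tends to the circle -/
theorem w_lim (E : Set ℂ) (t : ℝ) {c : ℕ → ℝ} (hc : Tendsto c atTop (𝓝 0)) :
    Tendsto (fun k => w (rad E (c k)) t) atTop (𝓝 (u t)) := by
  have h1 : Tendsto (fun k => rad E (c k) t) atTop (𝓝 1) := by
    have h2 := (hc.mul_const (d E t)).const_add 1
    rw [zero_mul, add_zero] at h2
    exact h2
  have h3 : Tendsto (fun k => ((rad E (c k) t : ℝ) : ℂ)) atTop (𝓝 ((1 : ℝ) : ℂ)) :=
    (Complex.continuous_ofReal.tendsto 1).comp h1
  have h4 := h3.mul_const (u t)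
  rw [Complex.ofReal_one, one_mul] at h4
  exact h4

/-- the logarithmic derivative tends to `I` -/
theorem κ_lim (E : Set ℂ) (t : ℝ) {c : ℕ → ℝ} (hc : Tendsto c atTop (𝓝 0)) :
    Tendsto (fun k => κ (rad E (c k)) t) atTop (𝓝 I) := by
  have h1 : Tendsto (fun k => rad E (c k) t) atTop (𝓝 1) := by
    have h2 := (hc.mul_const (d E t)).const_add 1
    rw [zero_mul, add_zero] at h2
    exact h2
  have h2 : ∀ k, deriv (rad E (c k)) t = c k * deriv (d E) t := by
    intro k
    have h3 : rad E (c k) = fun t => 1 + c k * d E t := rfl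
    rw [h3, deriv_const_add, deriv_const_mul_field]
  have h4 : Tendsto (fun k => deriv (rad E (c k)) t / rad E (c k) t) atTop (𝓝 0) := by
    simp only [h2]
    have h5 := (hc.mul_const (deriv (d E) t)).div h1 one_ne_zero
    rw [zero_mul, zero_div] at h5
    exact h5
  have h6 : Tendsto (fun k => ((deriv (rad E (c k)) t / rad E (c k) t : ℝ) : ℂ)) atTop
      (𝓝 ((0 : ℝ) : ℂ)) := (Complex.continuous_ofReal.tendsto 0).comp h4
  have h7 := h6.const_add I
  rw [Complex.ofReal_zero, add_zero] at h7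
  exact h7

theorem w_dist (E : Set ℂ) (c t : ℝ) : dist (w (rad E c) t) (u t) = |c| * d E t := by
  have h1 : w (rad E c) t - u t = ((c * d E t : ℝ) : ℂ) * u t := by
    unfold w rad
    push_cast
    ring
  rw [dist_eq_norm, h1, norm_mul, norm_u, mul_one, Complex.norm_real, Real.norm_eq_abs, abs_mul,
    abs_of_nonneg (a := d E t) infDist_nonneg]

theorem t_SigmaLimit : SigmaLimit := by
  intro hC b E M hE hne hcirc Φ hΦ hin hout hbd hid
  set σ : ℕ → ℝ := fun k => 1 / (8 * ((k : ℝ) + 1)) with hσd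
  have hσ0 : ∀ k, 0 < σ k := fun k => by
    rw [hσd]
    positivity
  have hσ8 : ∀ k, σ k ≤ 1 / 8 := fun k => by
    rw [hσd]
    apply one_div_le_one_div_of_le (by norm_num)
    have : (0 : ℝ) ≤ k := Nat.cast_nonneg k
    linarith
  have hσ4 : ∀ k, σ k ≤ 1 / 4 := fun k => (hσ8 k).trans (by norm_num)
  have hσlim : Tendsto σ atTop (𝓝 0) := by
    have h1 := (tendsto_one_div_add_atTop_nhds_zero_nat (𝕜 := ℝ)).const_mul (1 / 8)
    rw [mul_zero] at h1
    refine h1.congr fun k => ?_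
    rw [hσd]
    field_simp
  have hσlim' : Tendsto (fun k => -σ k) atTop (𝓝 0) := by
    have := hσlim.neg
    rwa [neg_zero] at this
  have hNm : MeasurableSet (NE E) := (hC E hE hne hcirc _ (hσ0 0) (hσ4 0)).2.2.2.2.1
  have huc : ∀ t ∈ NE E, u t ∈ Eᶜ := fun t ht => ht.2
  have hΦc := hΦ.continuousOn
  -- membership
  have hmem : ∀ c : ℝ, |c| ≤ 1 / 8 → ∀ t, w (rad E c) t ∈ closedBall (u t) (infDist (u t) E / 8) := by
    intro c hc t
    rw [mem_closedBall, w_dist]
    have : (0 : ℝ) ≤ d E t := infDist_nonneg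
    calc |c| * d E t ≤ 1 / 8 * d E t := mul_le_mul_of_nonneg_right hc this
      _ = infDist (u t) E / 8 := by unfold d; ring
  have hbm : ∀ k, ∀ t ∈ NE E, ‖Φ (w (rad E (-σ k)) t)‖ ≤ 36 * M := fun k t ht =>
    hbd (u t) (norm_u t) ht.2 _ (hmem _ (by rw [abs_neg, abs_of_pos (hσ0 k)]; exact hσ8 k) t)
  have hbp : ∀ k, ∀ t ∈ NE E, ‖Φ (w (rad E (σ k)) t)‖ ≤ 36 * M := fun k t ht =>
    hbd (u t) (norm_u t) ht.2 _ (hmem _ (by rw [abs_of_pos (hσ0 k)]; exact hσ8 k) t)
  have hnin : ∀ z : ℂ, ‖z‖ < 1 → z ∉ E := fun z hz h => by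
    have := hcirc z h
    linarith
  have hnout : ∀ z : ℂ, 1 < ‖z‖ → z ∉ E := fun z hz h => by
    have := hcirc z h
    linarith
  have hG : ∀ k, 2 * (Real.pi : ℂ) * I * b 0 = ∫ t in NE E,
      (-Φ (w (rad E (-σ k)) t) * κ (rad E (-σ k)) t + Φ (w (rad E (σ k)) t) * κ (rad E (σ k)) t) := by
    intro k
    rw [hid (σ k) (hσ0 k) (hσ4 k)]
    refine setIntegral_congr_fun hNm fun t ht => ?_
    obtain ⟨-, -, -, -, -, -, -, -, -, -, -, -, -, hNE, -⟩ :=
      hC E hE hne hcirc (σ k) (hσ0 k) (hσ4 k)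
    obtain ⟨-, h1, h2⟩ := hNE t ht
    rw [hin _ h1 (hnin _ h1), hout _ h2 (hnout _ h2), neg_neg]
  have hlim : Tendsto (fun k => ∫ t in NE E,
      (-Φ (w (rad E (-σ k)) t) * κ (rad E (-σ k)) t + Φ (w (rad E (σ k)) t) * κ (rad E (σ k)) t))
      atTop (𝓝 (∫ _t in NE E, (0 : ℂ))) := by
    refine tendsto_integral_of_dominated_convergence (fun _ => 36 * M * 2 + 36 * M * 2) ?_ ?_ ?_ ?_
    · intro k
      obtain ⟨-, -, -, -, -, -, -, -, -, hκm, hκp, hwm, hwp, hNE, -⟩ :=
        hC E hE hne hcirc (σ k) (hσ0 k) (hσ4 k)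
      have h1 : ContinuousOn (fun t => Φ (w (rad E (-σ k)) t)) (NE E) :=
        hΦc.comp hwm.continuousOn fun t ht => hnin _ (hNE t ht).2.1
      have h2 : ContinuousOn (fun t => Φ (w (rad E (σ k)) t)) (NE E) :=
        hΦc.comp hwp.continuousOn fun t ht => hnout _ (hNE t ht).2.2
      exact ((h1.neg.aestronglyMeasurable hNm).mul hκm.aestronglyMeasurable).add
        ((h2.aestronglyMeasurable hNm).mul hκp.aestronglyMeasurable)
    · exact integrableOn_const (NE_fin E)
    · intro k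
      obtain ⟨-, -, -, -, -, -, -, -, hκ, -, -, -, -, -, -⟩ :=
        hC E hE hne hcirc (σ k) (hσ0 k) (hσ4 k)
      refine (ae_restrict_iff' hNm).2 (Eventually.of_forall fun t ht => ?_)
      refine (norm_add_le _ _).trans (add_le_add ?_ ?_)
      · rw [norm_mul, norm_neg]
        exact mul_le_mul (hbm k t ht) (hκ t).1 (norm_nonneg _) ((norm_nonneg _).trans (hbm k t ht))
      · rw [norm_mul]
        exact mul_le_mul (hbp k t ht) (hκ t).2 (norm_nonneg _) ((norm_nonneg _).trans (hbp k t ht))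
    · refine (ae_restrict_iff' hNm).2 (Eventually.of_forall fun t ht => ?_)
      have hcont : Tendsto Φ (𝓝 (u t)) (𝓝 (Φ (u t))) :=
        hΦc.continuousAt (hE.isOpen_compl.mem_nhds (huc t ht))
      have h1 := (hcont.comp (w_lim E t hσlim')).neg.mul (κ_lim E t hσlim')
      have h2 := (hcont.comp (w_lim E t hσlim)).mul (κ_lim E t hσlim)
      have h3 := h1.add h2
      have h4 : -Φ (u t) * I + Φ (u t) * I = 0 := by ring
      rw [h4] at h3
      exact h3
  rw [integral_zero] at hlim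
  have h1 : Tendsto (fun _ : ℕ => 2 * (Real.pi : ℂ) * I * b 0) atTop (𝓝 0) :=
    hlim.congr fun k => (hG k).symm
  have h2 := tendsto_nhds_unique tendsto_const_nhds h1
  have h3 : 2 * (Real.pi : ℂ) * I ≠ 0 := by
    simp [Real.pi_ne_zero]
  exact (mul_eq_zero.1 h2).resolve_left h3

end Run7.h19.TB.SL
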